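import Mathlib

/-!
# A vanishing Goss zeta value: the definitions and the statements of the modules

`K = F_3(x, y)`, `y³ = y + h`, `h = (x³ - x² + 1) / (x³ - x + 1)`; the place `∞` is the inert place over
`π = x⁵ - x + 1`.
-/

set_option autoImplicit false

namespace Pool.Agent.Helper91.GZ

open Polynomial

/-! ### general definitions (these are the definitions of the final statement) -/

section General

variable {K : Type} [Field K]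

/-- the elements of `K` which are regular away from the place with the valuation ring `O` -/
def regular (O : ValuationSubring K) : Set K := {a | ∀ V : ValuationSubring K, V ≠ ⊤ → V ≠ O → a ∈ V}

/-- `ϖ` generates the maximal ideal of `O` -/
def IsUnif (O : ValuationSubring K) (ϖ : K) : Prop := ϖ ≠ 0 ∧ ∀ x : K, x ∈ O.nonunits ↔ ∃ y ∈ O, x = ϖ * y

/-- `u` is a unit of `O` -/
def IsU (O : ValuationSubring K) (u : K) : Prop := u ≠ 0 ∧ u ∈ O ∧ u⁻¹ ∈ O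

/-- `x` has the order `n` at the place: `x = ϖ ^ n u` with a uniformizer `ϖ` and a unit `u` of `O` -/
def HasOrd (O : ValuationSubring K) (x : K) (n : ℤ) : Prop := ∃ ϖ u : K, IsUnif O ϖ ∧ IsU O u ∧ x = ϖ ^ n * u

/-- a sign function: a homomorphism from `K^*` to the multiplicative group of the residue field of `O` which is the
reduction on the units of `O` -/
def IsSign (O : ValuationSubring K) (sgn : Kˣ →* (IsLocalRing.ResidueField O)ˣ) : Prop :=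
  ∀ (z : Kˣ) (u : O), (z : K) = u → (z : K)⁻¹ ∈ O → ((sgn z : (IsLocalRing.ResidueField O)ˣ) :
    IsLocalRing.ResidueField O) = IsLocalRing.residue O u

/-- `S` contains exactly one element of every class of the residue field modulo the constants `F^*` -/
def IsReps (F : Type) [Field F] [Algebra F K] (O : ValuationSubring K) (sgn : Kˣ →* (IsLocalRing.ResidueField O)ˣ)
    (S : Set (IsLocalRing.ResidueField O)ˣ) : Prop :=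
  ∀ z : (IsLocalRing.ResidueField O)ˣ, ∃! s, s ∈ S ∧ ∃ c : Fˣ, z = sgn (Units.map (algebraMap F K : F →* K) c) * s

/-- the positive elements of `A` with a pole of order `n` at `∞` -/
def positive (O : ValuationSubring K) (sgn : Kˣ →* (IsLocalRing.ResidueField O)ˣ)
    (S : Set (IsLocalRing.ResidueField O)ˣ) (n : ℕ) : Set K :=
  {a | a ∈ regular O ∧ HasOrd O a (-(n : ℤ)) ∧ ∃ a' : Kˣ, (a' : K) = a ∧ sgn a' ∈ S}

/-- `z` is the zeta value `ζ_A(-k)` -/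
def IsZeta (O : ValuationSubring K) (sgn : Kˣ →* (IsLocalRing.ResidueField O)ˣ)
    (S : Set (IsLocalRing.ResidueField O)ˣ) (k : ℕ) (z : K) : Prop :=
  (∀ n, (positive O sgn S n).Finite) ∧ ∃ N : ℕ, (∀ n, N ≤ n → ∑ᶠ a ∈ positive O sgn S n, a ^ k = 0) ∧
    ∑ n ∈ Finset.range N, ∑ᶠ a ∈ positive O sgn S n, a ^ k = z

/-- `K` is a function field of one variable over `F`, with full constant field `F` -/
structure IsFunctionField (F K : Type) [Field F] [Field K] [Algebra F K] : Prop where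
  fin : ∃ t : K, Transcendental F t ∧ Module.Finite (IntermediateField.adjoin F {t}) K
  const : ∀ x : K, IsAlgebraic F x → ∃ c : F, algebraMap F K c = x

end General

/-! ### the field -/

/-- the polynomials in `x` over `F_3` -/
abbrev R : Type := (ZMod 3)[X]

/-- `F_3(x)` -/
abbrev K0 : Type := RatFunc (ZMod 3)

noncomputable def q3 : R := X ^ 3 - X + 1

noncomputable def qh : R := X ^ 3 - X ^ 2 + 1

noncomputable def qp : R := X ^ 5 - X + 1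

noncomputable def hh : K0 := algebraMap R K0 qh / algebraMap R K0 q3

section Fix

variable {K : Type} [Field K] [Algebra K0 K]

/-- `a + b y + c y²` -/
noncomputable def el (y : K) (a b c : K0) : K := algebraMap K0 K a + algebraMap K0 K b * y + algebraMap K0 K c * y ^ 2

/-- the polynomials in `x` as elements of `K` -/
noncomputable def pl : R →+* K := (algebraMap K0 K).comp (algebraMap R K0)

/-- `α + q3 β y + q3 γ y²`, the integral elements over `F_3[x]` -/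
noncomputable def zl (y : K) (α β γ : R) : K := pl α + pl (q3 * β) * y + pl (q3 * γ) * y ^ 2

end Fix

/-- `1, y, y²` is a basis of `K` over `F_3(x)`, and `y³ = y + h` -/
structure Ext (K : Type) [Field K] [Algebra K0 K] (y : K) : Prop where
  rel : y ^ 3 = y + algebraMap K0 K hh
  span : ∀ z : K, ∃ a b c : K0, z = el y a b c
  indep : ∀ a b c : K0, el y a b c = 0 → a = 0 ∧ b = 0 ∧ c = 0

/-- `u` is integral at `π` -/
def Pint (u : K0) : Prop := ∃ f g : R, ¬ qp ∣ g ∧ u * algebraMap R K0 g = algebraMap R K0 f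

/-- `O` is the valuation ring over `π` -/
def IsPl {K : Type} [Field K] [Algebra K0 K] (y : K) (O : ValuationSubring K) : Prop :=
  ∀ a b c : K0, el y a b c ∈ O ↔ Pint a ∧ Pint b ∧ Pint c

/-! ### the modules on the field -/

/-- EXT. `K = AdjoinRoot (X³ - X - C h)`; the cubic has no root in `F_3(x)` (`q3` divides the denominator of `h`
once), so it is irreducible. -/
def S_EXT : Prop := ∃ (K : Type) (_ : Field K) (_ : Algebra K0 K) (y : K), Ext K y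

/-- FINX: the integral elements over `F_3[x]`. By Mathlib's `iInf_valuationSubring_superset` (with `s = {pl X}`)
`z` is integral over `F_3[x]`. The automorphism `y ↦ y + 1` (or: the characteristic polynomials) and: for
`z = a + b y + c y²` the second difference is `2 c`, integral, so `c ∈ R`; the first difference is `α + β y`,
`α = b + c`, `β = 2 c`, with the characteristic polynomial `T³ - β² T - (α³ - α β² + β³ h)`; so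
`α³ - α β² + β³ h ∈ R`; the valuation at `q3` shows `q3 ∣ β`, and then `α ∈ R`. Then `c y²` is integral
(`y²` is a root of `T³ + T² + T - h²`), and the same argument for `a + b y` shows `q3 ∣ b`, `a ∈ R`. -/
def S_FINX : Prop := ∀ (K : Type) [Field K] [Algebra K0 K] (y : K), Ext K y → ∀ z : K,
  (∀ V : ValuationSubring K, (pl X : K) ∈ V → z ∈ V) → ∃ α β γ : R, z = zl y α β γ

/-- INF: regularity over `x = ∞`. `O' = {u | u.intDegree ≤ 0}` is a valuation ring of `F_3(x)`; a valuation ring of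
`K` which contains it either contains `F_3(x)` (and is `⊤`, `K` being algebraic) or does not contain `x`. So
`el y a b c` is integral over `O'` (`iInf_valuationSubring_superset`), and the differences as in FINX (here `h ∈ O'`)
show `c ∈ O'`, `b ∈ O'`, `a ∈ O'`. -/
def S_INF : Prop := ∀ (K : Type) [Field K] [Algebra K0 K] (y : K), Ext K y → ∀ a b c : K0,
  (∀ V : ValuationSubring K, (pl X : K) ∉ V → el y a b c ∈ V) →
    a.intDegree ≤ 0 ∧ b.intDegree ≤ 0 ∧ c.intDegree ≤ 0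

/-- VAL: the place over `π` is inert. The residue ring `(F_3[x]/π)[y]` is a field, because `h` modulo `π` has trace `1`
to `F_3` (`h + h³ + h⁹ + h²⁷ + h⁸¹ = 1` modulo `π`), so it is not of the form `r³ - r`. Hence
`w(a + b y + c y²) = max (v a, v b, v c)`, `v` the `π`-adic valuation, is multiplicative. -/
def S_VAL : Prop := ∀ (K : Type) [Field K] [Algebra K0 K] (y : K), Ext K y → ∃ O : ValuationSubring K, IsPl y O

/-- DV: every `z ≠ 0` is `π^n u`: take out the largest power of `π` from the three coordinates; a `u ∈ O` with a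
coordinate which is not divisible by `π` is a unit: otherwise `u` is in the maximal ideal ... (use that `O` is a
valuation ring: if `u⁻¹ ∉ O` then `u⁻¹ = π^(-m) u'`, `m ≥ 1`, `u'` with a coordinate prime to `π`, and `u u' = π^m`;
use the multiplicativity, or the norm). It may be done together with VAL. -/
def S_DV : Prop := ∀ (K : Type) [Field K] [Algebra K0 K] (y : K), Ext K y → ∀ O : ValuationSubring K, IsPl y O →
  (pl qp : K) ≠ 0 ∧ (pl qp : K) ∈ O ∧ (pl qp : K)⁻¹ ∉ O ∧ ∀ z : K, z ≠ 0 → ∃ (n : ℤ) (u : K), IsU O u ∧ z = (pl qp) ^ n * u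

/-- SGN (general): the order and the sign function with `sgn p = 1`. -/
def S_SGN : Prop := ∀ (K : Type) [Field K] (O : ValuationSubring K) (p : K), p ≠ 0 → p ∈ O → p⁻¹ ∉ O →
  (∀ z : K, z ≠ 0 → ∃ (n : ℤ) (u : K), IsU O u ∧ z = p ^ n * u) →
  (∀ (z : K) (n : ℤ), HasOrd O z n ↔ ∃ u : K, IsU O u ∧ z = p ^ n * u) ∧
  ∃ sgn : Kˣ →* (IsLocalRing.ResidueField O)ˣ, IsSign O sgn ∧
    ∀ (z : Kˣ) (n : ℤ) (u : O), IsU O (u : K) → (z : K) = p ^ n * (u : K) →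
      ((sgn z : (IsLocalRing.ResidueField O)ˣ) : IsLocalRing.ResidueField O) = IsLocalRing.residue O u

/-- UNQ: uniqueness of the place over `π`. `F_3[x]` localised at `π` is contained in `V` (`g` prime to `π` is a unit of
`V`), `y` is integral over it, so `O ≤ V`; and `V ≤ O`: otherwise `π^(-n) u ∈ V`, `n ≥ 1`, `u` a unit of `O`. -/
def S_UNQ : Prop := S_DV → ∀ (K : Type) [Field K] [Algebra K0 K] (y : K), Ext K y → ∀ O : ValuationSubring K,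
  IsPl y O → ∀ V : ValuationSubring K, (pl X : K) ∈ V → (pl qp : K)⁻¹ ∉ V → V = O

/-- CNV: the explicit elements are regular away from `∞`. If `x ∈ V` then `q3 y`, `q3 y²` are integral over `F_3[x]`, so
in `V`, and `π⁻¹ ∈ V` by the hypothesis (`V ≠ O`). If `x ∉ V` then `V` contains all `u ∈ F_3(x)` with
`u.intDegree ≤ 0`, and `y` (as `h ∈ V`). -/
def S_CNV : Prop := ∀ (K : Type) [Field K] [Algebra K0 K] (y : K), Ext K y → ∀ O : ValuationSubring K,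
  (∀ V : ValuationSubring K, (pl X : K) ∈ V → (pl qp : K)⁻¹ ∉ V → V = O) →
  ∀ (n : ℕ) (α β γ : R), α.natDegree ≤ 5 * n → (q3 * β).natDegree ≤ 5 * n → (q3 * γ).natDegree ≤ 5 * n →
    zl y α β γ / (pl qp) ^ n ∈ regular O

/-- GFF: `K` is a function field with full constant field `F_3`. (For an algebraic element `z` over `F_3`: `z` is in
all valuation rings, use FINX and INF.) -/
def S_GFF : Prop := S_FINX → S_INF → ∀ (K : Type) [Field K] [Algebra K0 K] [Algebra (ZMod 3) K] (y : K), Ext K y →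
  IsFunctionField (ZMod 3) K

/-! ### sign normalisations -/

/-- REP (general): a set of representatives modulo `{1, e}` which contains a given set. -/
def S_REP : Prop := ∀ (M : Type) [CommGroup M] (e : M), e * e = 1 → e ≠ 1 → ∀ T : Set M, (∀ s ∈ T, e * s ∉ T) →
  ∃ S : Set M, T ⊆ S ∧ ∀ z : M, ∃! s, s ∈ S ∧ (z = s ∨ z = e * s)

/-- ODD (general): the sign function with given exceptional signs. Proof: let `φ` be the odd function with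
`φ u₀ u₁ w = s (1 + [(u₀, u₁) = (u₀', u₁')])` if `w` is positive and `(s, u₀', u₁', w) ∈ L`, `φ = 1` for the other
positive `w`, `φ u₀ u₁ 0 = u₁`, or `u₀` if `u₁ = 0`; `T = {φ = 1}` and `∑_T g = - ∑ φ g`. -/
def S_ODD : Prop := ∀ (K : Type) [Field K], (3 : K) = 0 → ∀ (W : Type) [AddCommGroup W] [Fintype W] [DecidableEq W]
  (pos : W → Prop), (∀ w : W, w ≠ 0 → (pos w ↔ ¬ pos (-w))) → ¬ pos 0 →
  ∀ g : ZMod 3 → ZMod 3 → W → K, (∀ u₀ u₁ w, g (-u₀) (-u₁) (-w) = - g u₀ u₁ w) →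
  (∀ w, ∑ u₀ : ZMod 3, ∑ u₁ : ZMod 3, g u₀ u₁ w = 0) →
  ∀ L : List (ℤ × ZMod 3 × ZMod 3 × W), (∀ k ∈ L, (k.1 = 1 ∨ k.1 = -1) ∧ pos k.2.2.2) →
  (L.map fun k => k.2.2.2).Nodup →
  ∃ T : Finset (ZMod 3 × ZMod 3 × W), (0, 0, 0) ∉ T ∧ (1, 0, 0) ∈ T ∧
    (∀ u₀ u₁ w, (u₀, u₁, w) ≠ 0 → ((u₀, u₁, w) ∈ T ↔ (-u₀, -u₁, -w) ∉ T)) ∧
    ∑ t ∈ T, g t.1 t.2.1 t.2.2 = g 1 0 0 + g 0 1 0 + g 1 1 0 + g 2 1 0 +
      (L.map fun k => (k.1 : K) * g k.2.1 k.2.2.1 k.2.2.2).sum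

/-! ### identities -/

/-- `-e + e³ - e⁵` -/
def gam {K : Type} [Field K] (e : K) : K := -e + e ^ 3 - e ^ 5

/-- GA1: `linear_combination (explicit) * h3` -/
def S_GA1 : Prop := ∀ (K : Type) [Field K], (3 : K) = 0 → ∀ b : K,
  ∑ c : ZMod 3, (b + (c.val : K)) ^ 17 = gam (b ^ 3 - b)

/-- GA2: a three dimensional space: `∑ (a + c + s u + t v)^17 = 0` -/
def S_GA2 : Prop := ∀ (K : Type) [Field K], (3 : K) = 0 → ∀ e a b : K,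
  ∑ s : ZMod 3, ∑ t : ZMod 3, gam (e + (s.val : K) * a + (t.val : K) * b) = 0

/-- the exceptional signs: sign, `u₀`, `u₁`, `w` -/
def keys : List (ℤ × ZMod 3 × ZMod 3 × (Fin 9 → ZMod 3)) := [
  (1, 1, 1, ![0, 1, 2, 1, 1, 0, 0, 0, 1]),
  (1, 2, 2, ![2, 0, 1, 0, 2, 2, 2, 2, 1]),
  (1, 2, 2, ![2, 1, 1, 1, 2, 0, 0, 2, 1]),
  (-1, 0, 1, ![1, 0, 1, 0, 0, 2, 0, 1, 1]),
  (1, 1, 2, ![2, 0, 0, 2, 0, 1, 2, 1, 1]),
  (1, 1, 2, ![0, 1, 1, 0, 2, 2, 1, 0, 1]),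
  (1, 0, 0, ![0, 2, 0, 2, 0, 0, 1, 0, 1]),
  (-1, 0, 1, ![0, 0, 0, 0, 2, 0, 0, 0, 1]),
  (-1, 1, 1, ![1, 1, 2, 1, 1, 0, 0, 2, 1]),
  (1, 1, 1, ![0, 2, 1, 2, 1, 0, 0, 2, 1]),
  (-1, 0, 0, ![1, 1, 2, 0, 1, 0, 1, 2, 1]),
  (-1, 1, 2, ![1, 0, 1, 1, 2, 0, 1, 1, 0]),
  (-1, 0, 0, ![2, 2, 2, 2, 1, 0, 0, 1, 1]),
  (1, 1, 0, ![2, 2, 0, 0, 1, 1, 2, 1, 0]),
  (1, 0, 0, ![1, 1, 1, 0, 1, 1, 0, 1, 0]),
  (1, 1, 2, ![1, 2, 0, 0, 2, 2, 2, 1, 0]),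
  (1, 1, 1, ![1, 1, 2, 0, 1, 2, 2, 1, 1]),
  (-1, 2, 0, ![2, 1, 2, 1, 2, 2, 2, 2, 1]),
  (1, 1, 1, ![1, 0, 0, 0, 1, 1, 0, 0, 1]),
  (-1, 0, 2, ![1, 0, 2, 0, 2, 0, 1, 1, 1]),
  (-1, 0, 0, ![2, 1, 0, 1, 0, 0, 0, 1, 1]),
  (1, 2, 0, ![0, 2, 2, 2, 0, 0, 1, 2, 1]),
  (1, 1, 1, ![0, 1, 2, 0, 0, 1, 0, 2, 1]),
  (-1, 2, 0, ![1, 2, 2, 0, 1, 0, 0, 0, 1]),
  (-1, 2, 0, ![1, 2, 0, 0, 1, 1, 1, 0, 1]),
  (1, 0, 1, ![2, 1, 0, 1, 1, 1, 1, 0, 1]),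
  (-1, 1, 0, ![2, 0, 2, 2, 0, 1, 0, 0, 1]),
  (-1, 1, 0, ![2, 2, 1, 2, 0, 2, 1, 0, 1]),
  (-1, 2, 2, ![0, 2, 0, 2, 2, 2, 0, 1, 0]),
  (-1, 0, 1, ![2, 0, 1, 1, 1, 0, 2, 1, 0]),
  (-1, 1, 1, ![1, 0, 0, 0, 1, 0, 1, 1, 1]),
  (-1, 1, 1, ![0, 2, 1, 2, 0, 0, 0, 1, 1]),
  (1, 0, 2, ![1, 0, 2, 2, 2, 2, 2, 1, 1]),
  (1, 0, 1, ![1, 1, 2, 1, 0, 0, 1, 0, 0]),
  (-1, 2, 2, ![1, 1, 0, 1, 1, 1, 1, 0, 1]),
  (1, 2, 0, ![2, 0, 1, 0, 0, 2, 2, 2, 1]),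
  (1, 1, 1, ![0, 0, 2, 1, 2, 2, 2, 1, 0]),
  (-1, 0, 2, ![1, 0, 2, 0, 0, 1, 0, 0, 0]),
  (1, 2, 2, ![2, 2, 1, 0, 2, 1, 2, 0, 1]),
  (1, 2, 0, ![2, 2, 2, 0, 0, 0, 1, 1, 1]),
  (-1, 1, 1, ![1, 1, 2, 2, 0, 0, 2, 2, 1]),
  (1, 0, 2, ![1, 1, 0, 1, 2, 1, 1, 0, 0]),
  (-1, 2, 2, ![1, 1, 1, 1, 0, 0, 2, 0, 1]),
  (-1, 2, 2, ![2, 0, 0, 1, 1, 1, 0, 1, 0]),
  (-1, 2, 1, ![2, 1, 2, 2, 1, 2, 1, 1, 1]),
  (1, 0, 0, ![2, 2, 0, 0, 1, 1, 0, 1, 1]),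
  (1, 0, 1, ![1, 0, 1, 2, 0, 1, 0, 1, 0]),
  (-1, 2, 0, ![0, 2, 1, 0, 1, 0, 1, 2, 1]),
  (-1, 0, 0, ![1, 1, 2, 2, 1, 2, 1, 0, 0]),
  (1, 1, 1, ![2, 1, 1, 1, 1, 1, 0, 2, 1]),
  (-1, 1, 2, ![1, 1, 0, 2, 0, 0, 1, 0, 0]),
  (1, 2, 2, ![0, 1, 2, 2, 0, 2, 0, 0, 1]),
  (1, 0, 1, ![0, 2, 2, 2, 1, 1, 0, 0, 0]),
  (-1, 1, 1, ![1, 1, 0, 2, 0, 0, 1, 1, 1]),
  (1, 0, 2, ![0, 0, 2, 1, 0, 1, 2, 1, 1]),
  (1, 2, 1, ![1, 1, 2, 1, 2, 1, 0, 0, 0]),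
  (1, 1, 2, ![2, 0, 0, 0, 0, 0, 1, 2, 1]),
  (-1, 1, 0, ![0, 2, 0, 0, 0, 1, 1, 1, 1]),
  (-1, 2, 0, ![0, 2, 0, 2, 2, 2, 1, 1, 0]),
  (-1, 0, 1, ![0, 1, 1, 0, 2, 2, 2, 1, 0]),
  (1, 1, 1, ![2, 2, 1, 0, 2, 1, 2, 1, 1]),
  (1, 1, 0, ![2, 1, 2, 2, 0, 1, 1, 0, 0]),
  (-1, 1, 2, ![1, 1, 1, 0, 0, 0, 1, 0, 0]),
  (-1, 0, 2, ![1, 1, 2, 0, 0, 0, 0, 1, 1]),
  (-1, 2, 0, ![0, 2, 2, 2, 1, 1, 0, 1, 0]),
  (1, 2, 0, ![0, 0, 0, 2, 2, 0, 2, 1, 1]),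
  (-1, 0, 0, ![0, 2, 0, 2, 0, 0, 2, 1, 1]),
  (1, 1, 1, ![2, 2, 1, 1, 2, 2, 1, 0, 1]),
  (1, 0, 1, ![0, 0, 1, 2, 0, 1, 2, 1, 1]),
  (-1, 1, 0, ![1, 2, 1, 2, 1, 1, 1, 1, 1]),
  (1, 1, 0, ![0, 2, 0, 0, 0, 0, 1, 0, 1]),
  (-1, 0, 1, ![1, 2, 1, 1, 0, 2, 1, 1, 1]),
  (1, 2, 0, ![2, 2, 2, 2, 1, 0, 1, 0, 1]),
  (1, 1, 2, ![2, 1, 2, 2, 2, 2, 0, 1, 1]),
  (1, 0, 1, ![1, 0, 2, 0, 1, 0, 1, 2, 1]),
  (1, 1, 2, ![1, 0, 1, 2, 1, 0, 1, 0, 1]),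
  (1, 0, 2, ![0, 1, 1, 1, 0, 0, 0, 2, 1]),
  (1, 2, 0, ![2, 1, 1, 1, 2, 0, 0, 1, 1]),
  (-1, 2, 0, ![1, 1, 2, 2, 1, 0, 1, 0, 1]),
  (-1, 0, 2, ![1, 0, 1, 1, 2, 0, 1, 0, 1]),
  (1, 1, 2, ![0, 1, 2, 0, 1, 0, 0, 2, 1]),
  (-1, 0, 1, ![2, 0, 0, 0, 0, 0, 2, 1, 1]),
  (1, 2, 2, ![2, 0, 1, 0, 0, 1, 2, 1, 0]),
  (1, 2, 2, ![1, 1, 0, 0, 1, 0, 1, 0, 0]),
  (1, 0, 2, ![1, 1, 0, 2, 1, 1, 1, 2, 1]),
  (1, 1, 1, ![0, 1, 2, 2, 0, 0, 1, 1, 1]),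
  (-1, 2, 0, ![1, 1, 1, 2, 1, 1, 1, 1, 0]),
  (1, 2, 1, ![2, 0, 2, 1, 2, 2, 1, 0, 1]),
  (-1, 0, 1, ![0, 2, 0, 0, 1, 0, 2, 2, 1]),
  (-1, 2, 1, ![1, 1, 2, 2, 2, 2, 0, 1, 1]),
  (-1, 1, 0, ![0, 0, 2, 2, 0, 1, 2, 1, 1]),
  (1, 1, 1, ![0, 1, 0, 0, 0, 0, 0, 1, 1]),
  (1, 1, 0, ![2, 2, 1, 2, 1, 1, 1, 0, 0]),
  (-1, 2, 0, ![2, 0, 2, 1, 1, 0, 2, 0, 1]),
  (1, 2, 0, ![1, 2, 1, 2, 0, 2, 1, 0, 0]),
  (-1, 1, 2, ![1, 0, 0, 2, 2, 1, 0, 1, 0]),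
  (1, 0, 0, ![0, 2, 0, 1, 2, 2, 0, 1, 1]),
  (-1, 1, 2, ![2, 0, 0, 1, 1, 1, 1, 1, 0]),
  (1, 2, 1, ![2, 0, 1, 1, 1, 2, 0, 2, 1]),
  (1, 2, 1, ![0, 2, 0, 0, 1, 1, 2, 2, 1]),
  (-1, 1, 1, ![0, 1, 2, 2, 2, 2, 2, 2, 1]),
  (-1, 2, 1, ![2, 0, 2, 0, 2, 1, 0, 1, 0]),
  (-1, 0, 0, ![1, 0, 0, 0, 2, 2, 0, 2, 1]),
  (1, 1, 1, ![1, 0, 2, 0, 1, 1, 0, 1, 0]),
  (-1, 2, 2, ![2, 2, 1, 2, 1, 2, 1, 0, 1]),
  (-1, 1, 1, ![0, 0, 2, 1, 1, 0, 1, 2, 1]),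
  (-1, 0, 0, ![0, 2, 0, 1, 0, 1, 1, 2, 1]),
  (-1, 0, 0, ![2, 0, 1, 1, 1, 1, 1, 2, 1]),
  (-1, 2, 0, ![1, 2, 0, 2, 2, 1, 1, 0, 0]),
  (1, 2, 0, ![1, 0, 0, 1, 1, 1, 2, 2, 1]),
  (1, 0, 2, ![1, 2, 2, 2, 2, 0, 0, 2, 1]),
  (-1, 0, 1, ![1, 0, 0, 1, 1, 1, 2, 0, 1]),
  (-1, 1, 1, ![1, 0, 1, 0, 2, 2, 0, 2, 1]),
  (1, 1, 2, ![0, 1, 1, 1, 0, 0, 2, 1, 0]),
  (1, 0, 0, ![1, 0, 0, 0, 1, 1, 2, 1, 0]),
  (-1, 1, 1, ![1, 2, 1, 1, 1, 0, 2, 2, 1]),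
  (-1, 0, 2, ![1, 2, 0, 2, 0, 0, 2, 2, 1]),
  (1, 1, 1, ![2, 1, 0, 2, 2, 2, 1, 0, 0])]

/-- `α` -/
noncomputable def al (u₀ u₁ : ZMod 3) (w : Fin 9 → ZMod 3) : R :=
  C u₀ + C u₁ * X + C (w 0) * X ^ 2 + C (w 1) * X ^ 3 + C (w 2) * X ^ 4

noncomputable def be (w : Fin 9 → ZMod 3) : R := C (w 3) + C (w 4) * X + C (w 5) * X ^ 2

noncomputable def ga (w : Fin 9 → ZMod 3) : R := C (w 6) + C (w 7) * X + C (w 8) * X ^ 2

/-- the element `b = (α + q3 β y + q3 γ y²) / π` of `L(∞)` -/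
noncomputable def bb {K : Type} [Field K] [Algebra K0 K] (y : K) (u₀ u₁ : ZMod 3) (w : Fin 9 → ZMod 3) : K :=
  zl y (al u₀ u₁ w) (be w) (ga w) / pl qp

/-- the function `G` -/
noncomputable def gg {K : Type} [Field K] [Algebra K0 K] (y : K) (u₀ u₁ : ZMod 3) (w : Fin 9 → ZMod 3) : K :=
  gam (bb y u₀ u₁ w ^ 3 - bb y u₀ u₁ w)

/-- `w` is positive: the last coordinate different from `0` is `1` -/
def pos9 (w : Fin 9 → ZMod 3) : Prop := ∃ i : Fin 9, w i = 1 ∧ ∀ j : Fin 9, i < j → w j = 0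

/-- KEY: the list is admissible -/
def S_KEY : Prop := (∀ k ∈ keys, (k.1 = 1 ∨ k.1 = -1) ∧ pos9 k.2.2.2) ∧ (keys.map fun k => k.2.2.2).Nodup ∧
  (∀ w : Fin 9 → ZMod 3, w ≠ 0 → (pos9 w ↔ ¬ pos9 (-w))) ∧ ¬ pos9 0

/-- CMP: the identity. With `e = b³ - b = E / π³`, `E = z³ - z π²`, everything is over `π^15`; `E³` is a sparse
polynomial; the sum over the list of `± E⁵` has to be computed in the kernel (118 terms, degrees at most 75).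
In the basis `1, A = q3 y, B = q3 y²` of the integral elements: `A² = q3 B`, `A B = q3 A + q3 qh`,
`B² = q3 B + qh A`. Checked numerically. -/
def S_CMP : Prop := ∀ (K : Type) [Field K] [Algebra K0 K] (y : K), Ext K y →
  1 + gg y 1 0 0 + gg y 0 1 0 + gg y 1 1 0 + gg y 2 1 0 +
    (keys.map fun k => (k.1 : K) * gg y k.2.1 k.2.2.1 k.2.2.2).sum = 0

end Pool.Agent.Helper91.GZ
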