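import Pool.Agent.Helper91.GZ.Base

/-!
# `π = x⁵ - x + 1` is irreducible over `F_3`
-/

set_option autoImplicit false

namespace Pool.Agent.Helper91.GZ.Irr

open Polynomial

theorem h3 : (3 : R) = 0 := by
  have h : ((3 : ZMod 3) : ZMod 3) = 0 := by decide
  have h3 : (C (3 : ZMod 3) : R) = (3 : R) := by
    have := map_ofNat (C : ZMod 3 →+* R) 3
    exact this
  rw [← h3, h, C_0]

theorem qp_nd : (qp : R).natDegree = 5 := by
  unfold qp
  compute_degree!

theorem qp_monic : (qp : R).Monic := by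
  unfold qp
  monicity!

theorem c1_0 : IsCoprime (X : R) qp := by
  refine ⟨1 - X^4, 1, ?_⟩
  unfold qp
  linear_combination (0) * h3

theorem c1_1 : IsCoprime (1 + X : R) qp := by
  refine ⟨X - X^2 + X^3 - X^4, 1, ?_⟩
  unfold qp
  linear_combination (0) * h3

theorem c1_2 : IsCoprime (-1 + X : R) qp := by
  refine ⟨-X - X^2 - X^3 - X^4, 1, ?_⟩
  unfold qp
  linear_combination (0) * h3

theorem c2_00 : IsCoprime (X^2 : R) qp := by
  refine ⟨1 - X^3 - X^4, 1 + X, ?_⟩
  unfold qp
  linear_combination (0) * h3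

theorem c2_01 : IsCoprime (X + X^2 : R) qp := by
  refine ⟨1 - X + X^2 - X^3, 1, ?_⟩
  unfold qp
  linear_combination (0) * h3

theorem c2_02 : IsCoprime (-X + X^2 : R) qp := by
  refine ⟨-1 - X - X^2 - X^3, 1, ?_⟩
  unfold qp
  linear_combination (0) * h3

theorem c2_10 : IsCoprime (1 + X^2 : R) qp := by
  refine ⟨X - X^3, 1, ?_⟩
  unfold qp
  linear_combination (0) * h3

theorem c2_11 : IsCoprime (1 + X + X^2 : R) qp := by
  refine ⟨-1 + X - X^2 + X^4, -1 - X, ?_⟩
  unfold qp
  linear_combination (-1) * h3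

theorem c2_12 : IsCoprime (1 - X + X^2 : R) qp := by
  refine ⟨1 - X + X^3 + X^4, -X, ?_⟩
  unfold qp
  linear_combination (-X + X^2) * h3

theorem c2_20 : IsCoprime (-1 + X^2 : R) qp := by
  refine ⟨-X - X^3, 1, ?_⟩
  unfold qp
  linear_combination (0) * h3

theorem c2_21 : IsCoprime (-1 + X + X^2 : R) qp := by
  refine ⟨-1 + X^2 + X^3 - X^4, X, ?_⟩
  unfold qp
  linear_combination (-X^2 + X^4) * h3

theorem c2_22 : IsCoprime (-1 - X + X^2 : R) qp := by
  refine ⟨1 - X - X^3 + X^4, -1 - X, ?_⟩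
  unfold qp
  linear_combination (-1 + X^2 - X^5) * h3


theorem dv_unit {q : R} (h1 : IsCoprime q qp) (h2 : q ∣ qp) (h3 : 0 < q.natDegree) : False := by
  have := h1.isUnit_of_dvd' dvd_rfl h2
  rw [natDegree_eq_zero_of_isUnit this] at h3
  omega

theorem zcases (a : ZMod 3) : a = 0 ∨ a = 1 ∨ a = -1 := by revert a; decide

theorem c1 (a : ZMod 3) : IsCoprime (X + C a) qp := by
  rcases zcases a with rfl | rfl | rfl
  · convert c1_0 using 1; rw [C_0]; ring
  · convert c1_1 using 1; rw [C_1]; ring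
  · convert c1_2 using 1; rw [C_neg, C_1]; ring

theorem c2 (a b : ZMod 3) : IsCoprime (X ^ 2 + C b * X + C a) qp := by
  rcases zcases a with rfl | rfl | rfl <;> rcases zcases b with rfl | rfl | rfl
  · convert c2_00 using 1; rw [C_0]; ring
  · convert c2_01 using 1; rw [C_0, C_1]; ring
  · convert c2_02 using 1; rw [C_neg, C_1, C_0]; ring
  · convert c2_10 using 1; rw [C_0, C_1]; ring
  · convert c2_11 using 1; rw [C_1]; ring
  · convert c2_12 using 1; rw [C_neg, C_1]; ring
  · convert c2_20 using 1; rw [C_neg, C_1, C_0]; ring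
  · convert c2_21 using 1; rw [C_neg, C_1]; ring
  · convert c2_22 using 1; rw [C_neg, C_1]; ring

theorem irr : Irreducible (qp : R) := by
  have h1 : (qp : R) ≠ 1 := by
    intro h
    have := qp_nd
    rw [h, natDegree_one] at this
    omega
  rw [qp_monic.irreducible_iff_lt_natDegree_lt h1]
  intro q hq hd hdv
  rw [qp_nd, Finset.mem_Ioc] at hd
  obtain ⟨hd1, hd2⟩ := hd
  have h2 : q.natDegree = 1 ∨ q.natDegree = 2 := by omega
  rcases h2 with h2 | h2
  · have hq1 : q = X + C (q.coeff 0) := by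
      have := q.as_sum_range_C_mul_X_pow
      rw [h2, Finset.sum_range_succ, Finset.sum_range_one] at this
      have hl : q.coeff 1 = 1 := by rw [← h2]; exact hq
      rw [hl] at this
      conv_lhs => rw [this]
      simp [add_comm]
    exact dv_unit (by rw [hq1]; exact c1 _) hdv (by omega)
  · have hq1 : q = X ^ 2 + C (q.coeff 1) * X + C (q.coeff 0) := by
      have := q.as_sum_range_C_mul_X_pow
      rw [h2, Finset.sum_range_succ, Finset.sum_range_succ, Finset.sum_range_one] at this
      have hl : q.coeff 2 = 1 := by rw [← h2]; exact hq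
      rw [hl] at this
      conv_lhs => rw [this]
      simp only [C_1, pow_zero, pow_one, mul_one, one_mul]
      ring
    exact dv_unit (by rw [hq1]; exact c2 _ _) hdv (by omega)

theorem prime : Prime (qp : R) := irr.prime

end Pool.Agent.Helper91.GZ.Irr
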